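import Pool.Agent.W229.V.Final

/-!
# Vojta's inequality holds for almost all points of large bounded degree, on every variety

Let `k` be a number field and `X ⊆ ℙ^N` an infinite projective algebraic set over `k` (for example a
smooth projective variety of positive dimension). Almost all points of `X` over the algebraic closure
of `k` whose degree over `k` is at most `d` have a logarithmic discriminant larger than `d^(1-δ)`
times their height, as soon as `d ≥ d₀(X, k, δ)`: among the points of degree at most `d` and height
at most `log B` the proportion of the other points is at most `B^(-c d²)`, for all large `B`, with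
`c = c(X, k) > 0`.

For a smooth `X` and any divisor `E` on `X` (for example `E = K_X`, or `E = K_X + D`) one has
`h_E ≤ κ h + O(1)` on `X` with a constant `κ = κ(X, E)`; so Vojta's inequality
`h_{K_X}(P) ≤ d_k(P) + ε h_A(P) + O(1)` holds, even without the term `ε h_A` and with any constant
in place of `O(1)`, for all points of degree at most `d` outside a set of density zero, for every
`d ≥ d₀(X, k)`.
-/

set_option autoImplicit false

namespace Pool.Agent.Results.MP_9b9442_nt.AlmostAllPoints

open Module
open scoped LinearAlgebra.Projectivization

noncomputable section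

variable {k : Type} [Field k] [NumberField k] {N : ℕ}

/-- The residue field `k(P)` of a point `P` of `ℙ^N` over the algebraic closure of `k`: the field
generated over `k` by the quotients of its homogeneous coordinates. -/
def residueField (P : ℙ (AlgebraicClosure k) (Fin (N + 1) → AlgebraicClosure k)) :
    IntermediateField k (AlgebraicClosure k) :=
  IntermediateField.adjoin k (Set.range fun ij : Fin (N + 1) × Fin (N + 1) =>
    P.rep ij.1 / P.rep ij.2)

instance numberField (P : ℙ (AlgebraicClosure k) (Fin (N + 1) → AlgebraicClosure k)) :
    NumberField (residueField P) := W229.V.nf P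

/-- The degree `[k(P) : k]` of the point `P`. -/
def degree (P : ℙ (AlgebraicClosure k) (Fin (N + 1) → AlgebraicClosure k)) : ℕ :=
  finrank k (residueField P)

/-- Homogeneous coordinates of `P` in `k(P)`: those of a representative divided by one of them
which is non-zero. -/
def coordinates (P : ℙ (AlgebraicClosure k) (Fin (N + 1) → AlgebraicClosure k)) :
    Fin (N + 1) → residueField P := fun i =>
  ⟨P.rep i / P.rep (Function.ne_iff.mp P.rep_nonzero).choose,
    IntermediateField.subset_adjoin k _ ⟨(i, _), rfl⟩⟩

/-- The logarithmic Weil height of `P` on `ℙ^N` relative to `k`: the height of its coordinates over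
the number field `k(P)`, divided by `[k(P) : k]`. -/
def height (P : ℙ (AlgebraicClosure k) (Fin (N + 1) → AlgebraicClosure k)) : ℝ :=
  Height.logHeight (coordinates P) / degree P

/-- The logarithmic discriminant `d_k(P)`. -/
def logDiscriminant (P : ℙ (AlgebraicClosure k) (Fin (N + 1) → AlgebraicClosure k)) : ℝ :=
  Real.log |(NumberField.discr (residueField P) : ℝ)| / degree P -
    Real.log |(NumberField.discr k : ℝ)|

/-- The points over the algebraic closure of `k` of the projective algebraic set defined by a set
`S` of homogeneous polynomials over `k`. -/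
def zeroSet (S : Set (MvPolynomial (Fin (N + 1)) k)) :
    Set (ℙ (AlgebraicClosure k) (Fin (N + 1) → AlgebraicClosure k)) :=
  {P | ∀ F ∈ S, MvPolynomial.aeval P.rep F = 0}

end

/-- **Almost all points of bounded degree have a large logarithmic discriminant.** -/
theorem result (k : Type) [Field k] [NumberField k] (N : ℕ)
    (S : Set (MvPolynomial (Fin (N + 1)) k)) (hS : ∀ F ∈ S, ∃ e, F.IsHomogeneous e)
    (hX : (zeroSet S).Infinite) :
    ∃ c : ℝ, 0 < c ∧ ∀ δ : ℝ, 0 < δ → ∃ d₀ : ℕ, ∀ d : ℕ, d₀ ≤ d → ∀ C : ℝ,
      ∀ᶠ B : ℝ in Filter.atTop,
        {P | P ∈ zeroSet S ∧ degree P ≤ d ∧ height P ≤ Real.log B}.Finite ∧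
        (Set.ncard {P | P ∈ zeroSet S ∧ degree P ≤ d ∧ height P ≤ Real.log B ∧
            logDiscriminant P ≤ (d : ℝ) ^ (1 - δ) * height P + C} : ℝ) ≤
          B ^ (-(c * (d : ℝ) ^ 2)) *
            Set.ncard {P | P ∈ zeroSet S ∧ degree P ≤ d ∧ height P ≤ Real.log B} :=
  W229.V.main k N S hS hX

end Pool.Agent.Results.MP_9b9442_nt.AlmostAllPoints
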