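import Pool.Agent.W4.VC.All

/-!
Vojta's inequality with discriminant term for the points of cyclic covers of the line, of any degree
`m`, whose branch points have degree at most three over `ℚ`.

Let `F = ∏ F_i` be a product of binary forms over `ℤ` of degrees `n_i ≤ 3`, without multiple factor,
`q = ∑ n_i`, and (for `m ∣ q`) `X` the smooth projective curve `y ^ m = F(x, 1)`. Over a rational
number `x = a / b` in lowest terms lie the points `P = (x, y / b ^ (q / m))`, `y ^ m = F(a, b)`, and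
`ℚ(P) = ℚ(y)`. The curve is totally ramified over the `q` zeros of `F`, so `K_X` is numerically the
pull-back of `q (1 - 1 / m) - 2` points.
-/

set_option autoImplicit false

namespace Pool.Agent.Results.MP_9b9442_nt.CubicBranchPoints

open Polynomial IntermediateField

/-- the binary form `∑ g_j X ^ j Z ^ (d - j)` of degree `d`, at the numerator and denominator of
`x` -/
def form (g : ℤ[X]) (d : ℕ) (x : ℚ) : ℤ :=
  ∑ j ∈ Finset.range (d + 1), g.coeff j * x.num ^ j * (x.den : ℤ) ^ (d - j)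

/-- the binary form of degree `q` attached to `g` has no multiple factor -/
def Reduced (g : ℤ[X]) (q : ℕ) : Prop :=
  Squarefree (g.map (Int.castRingHom ℚ)) ∧ g.natDegree ≤ q ∧ q ≤ g.natDegree + 1

/-- the logarithmic height of a rational number -/
noncomputable def height (x : ℚ) : ℝ := Real.log ((max x.num.natAbs x.den : ℕ) : ℝ)

open Classical in
/-- the logarithmic discriminant of the field `ℚ(y)` -/
noncomputable def logDisc (y : ℂ) : ℝ :=
  if _ : NumberField ℚ⟮y⟯ then
    Real.log |(NumberField.discr ℚ⟮y⟯ : ℝ)| / Module.finrank ℚ ℚ⟮y⟯ else 0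

/-- Let `m ≥ 2`, `F = ∏ F_i` a product of `k ≥ 1` binary forms over `ℤ` of degrees `n_i ≤ 3`, without
multiple factor, `q = ∑ n_i`, `c` real and `δ > 0`. Then for all `B ≥ 1`, all rational numbers
`x = a / b` of height at most `B` but at most `C B ^ (4 / 3 + δ)` and all `y ≠ 0` with
`y ^ m = F(a, b)` satisfy `(q (1 - 1 / m) - 2) h(x) ≤ d(ℚ(y)) + c`. -/
theorem result (m k : ℕ) (hm : 2 ≤ m) (hk : 1 ≤ k) (f : Fin k → ℤ[X]) (n : Fin k → ℕ)
    (hn : ∀ i, 1 ≤ n i ∧ n i ≤ 3) (hf : ∀ i, (f i).natDegree ≤ n i)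
    (hF : Reduced (∏ i, f i) (∑ i, n i)) (c δ : ℝ) (hδ : 0 < δ) :
    ∃ C : ℝ, ∀ B : ℝ, 1 ≤ B → ∃ T : Finset ℚ,
      (T.card : ℝ) ≤ C * B ^ ((4 : ℝ) / 3 + δ) ∧
      ∀ (x : ℚ) (y : ℂ), height x ≤ Real.log B → y ≠ 0 →
        y ^ m = ((∏ i, form (f i) (n i) x : ℤ) : ℂ) → x ∉ T →
        (((∑ i, n i : ℕ) : ℝ) * (1 - 1 / m) - 2) * height x ≤ logDisc y + c := by
  have hr : 1 ≤ ∑ i, n i := by
    refine (hn ⟨0, by omega⟩).1.trans ?_
    exact Finset.single_le_sum (f := n) (fun i _ => Nat.zero_le _) (Finset.mem_univ _)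
  exact Pool.Agent.W4.VC.noD m hm k f n hf (fun i => (hn i).2) hF hr c δ hδ

end Pool.Agent.Results.MP_9b9442_nt.CubicBranchPoints
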